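import Pool.Agent.LibPow85.Fact17

/-! Task LD-18. -/

namespace Pool.Agent.LibPow85

open Function Pool.Agent.LibNexp Pool.Agent.LibBHN
open Pool.Agent.LibDual85 hiding FSet NoCert KStep BitC CStep Prot RelB

variable {O : List Bool → Bool}

variable {I : ℕ → ℕ → List Bool} {F G : Lang} {key : List Bool → List Bool} {rho mm : ℕ → ℕ}

theorem fa18_bound (h : Prot O I F G key rho mm) :
    NEXP O fun e : Fin 2 → List Bool => (e 1).length ≤ rho (e 0).length := by
  obtain ⟨c, hc⟩ := h.hrhop
  have h1 : NEXP O fun e : Fin 3 → List Bool => (e 2).length = rho (e 0).length ∧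
      (e 1).length ≤ (e 2).length := by
    refine ((h.hrho.reindex ![0, 2]).congr fun e => ?_).and (nexp_lenLe 1 2)
    simp
  have h2 := nexp_ex (R := fun (e : Fin 2 → List Bool) s => s.length = rho (e 0).length ∧
      (e 1).length ≤ s.length) h1 (g := fun n => n ^ c + c)
    ((PolyB.id.pow c).add (PolyB.const c)) (by
      rintro e s ⟨h3, -⟩
      rw [h3]
      exact (hc _).trans (Nat.add_le_add_right (Nat.pow_le_pow_left (len_le_size e 0) c) c))
  refine h2.congr fun e => ?_
  constructor
  · rintro ⟨s, h3, h4⟩; omega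
  · intro h3
    exact ⟨List.replicate (rho (e 0).length) true, by simp, by simpa using h3⟩

theorem fa18_q {k : ℕ} {P : (Fin k → List Bool) → List Bool → Prop} (h : Prot O I F G key rho mm)
    (i j : Fin k)
    (hP : NEXP O fun e : Fin (k + 1) → List Bool =>
      P (low (Nat.le_add_right k 1) e) (e (Fin.last k))) :
    NEXP O fun e : Fin k → List Bool => P e (pair (e i) (key (e j))) := by
  have h1 : NEXP O fun e : Fin (k + 1) → List Bool =>
      e (Fin.last k) = pair (low (Nat.le_add_right k 1) e i) (key (low (Nat.le_add_right k 1) e j)) ∧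
      P (low (Nat.le_add_right k 1) e) (e (Fin.last k)) := by
    refine (((fa16_q h).reindex ![Fin.castLE (Nat.le_add_right k 1) i,
      Fin.castLE (Nat.le_add_right k 1) j, Fin.last k]).congr fun e => ?_).and hP
    rfl
  have h2 := nexp_ex (R := fun (e : Fin k → List Bool) q => q = pair (e i) (key (e j)) ∧ P e q) h1
    (g := fun n => 3 * n + 2) (((PolyB.const 3).mul PolyB.id).add (PolyB.const 2)) (by
      rintro e q ⟨rfl, -⟩
      have h3 := len_le_size e i
      have h4 := len_le_size e j
      have h5 := h.hkl (e j)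
      rw [length_pair]
      show _ ≤ 3 * size e + 2
      omega)
  refine h2.congr fun e => ?_
  constructor
  · rintro ⟨q, rfl, h3⟩; exact h3
  · intro h3; exact ⟨_, rfl, h3⟩

theorem nexp_kstep (h : Prot O I F G key rho mm) :
    NEXP O fun e : Fin 5 → List Bool => KStep I F key rho mm (e 0).length (e 1) (e 2) (e 3) (e 4) := by
  have h1 : NEXP O fun e : Fin 5 → List Bool => pair (e 2) (key (e 3)) ∈ F :=
    fa18_q (k := 5) (P := fun _ q => q ∈ F) h 2 3 (nexp_mem h.hF 5)
  have h2 : NEXP O fun e : Fin 5 → List Bool =>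
      NoCert I F key rho mm (e 0).length (e 1) (pair (e 2) (key (e 3))) := by
    refine fa18_q (k := 5) (P := fun e q => NoCert I F key rho mm (e 0).length (e 1) q) h 2 3 ?_
    refine ((nexp_noCert h).reindex ![0, 1, 5]).congr fun e => ?_
    rfl
  unfold KStep
  refine (((fa18_bound h).reindex ![2, 4]).congr fun e => ?_).and
    (((nexp_snoc true 3 4).and h1).or ((nexp_snoc false 3 4).and h2))
  simp

theorem nexp_bitC (h : Prot O I F G key rho mm) (b : Bool) :
    NEXP O fun e : Fin 3 → List Bool => BitC I F G key rho mm (e 0).length (e 1) (e 2) b := by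
  obtain ⟨c, hc⟩ := h.hrhop
  -- reachability
  have hr := nexp_reach (k := 3)
    (S := fun e β β' => KStep I F key rho mm (e 0).length (e 1) (e 2) β β') (nexp_kstep h)
    (g := fun n => n ^ c + c) ((PolyB.id.pow c).add (PolyB.const c))
    (fun a b hab => Nat.add_le_add_right (Nat.pow_le_pow_left hab c) c) (by
      rintro e β β' ⟨h3, -⟩
      exact h3.trans ((hc _).trans
        (Nat.add_le_add_right (Nat.pow_le_pow_left (len_le_size e 2) c) c)))
  have hr' : NEXP O fun e : Fin 5 → List Bool =>
      Relation.ReflTransGen (KStep I F key rho mm (e 0).length (e 1) (e 2)) (e 3) (e 4) := hr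
  have hr2 : NEXP O fun e : Fin 4 → List Bool =>
      Relation.ReflTransGen (KStep I F key rho mm (e 0).length (e 1) (e 2)) [] (e 3) := by
    have h1 : NEXP O fun e : Fin 5 → List Bool => e 4 = [] ∧
        Relation.ReflTransGen (KStep I F key rho mm (e 0).length (e 1) (e 2)) (e 4) (e 3) := by
      refine (nexp_const [] 4).and ((hr'.reindex ![0, 1, 2, 4, 3]).congr fun e => ?_)
      rfl
    have h2 := nexp_ex (R := fun (e : Fin 4 → List Bool) z => z = [] ∧
        Relation.ReflTransGen (KStep I F key rho mm (e 0).length (e 1) (e 2)) z (e 3)) h1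
      (g := fun _ => 0) (PolyB.const _) (by
        rintro e z ⟨rfl, -⟩
        exact le_rfl)
    refine h2.congr fun e => ?_
    constructor
    · rintro ⟨z, rfl, h3⟩; exact h3
    · intro h3; exact ⟨_, rfl, h3⟩
  -- the final test
  have hG : NEXP O fun e : Fin 2 → List Bool =>
      ((b = true ∧ pair (e 0) (e 1) ∈ G) ∨ (b = false ∧ pair (e 0) (e 1) ∉ G)) := by
    cases b
    · refine (nexp_pair_mem h.hG' 0 1).congr fun e => ?_
      simp
    · refine (nexp_pair_mem h.hG 0 1).congr fun e => ?_
      simp
  obtain ⟨d, hd⟩ := h.hIl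
  have h1 : NEXP O fun e : Fin 5 → List Bool => e 3 = I (e 0).length (e 2).length ∧
      (e 4).length = rho (e 3).length ∧
      Relation.ReflTransGen (KStep I F key rho mm (e 0).length (e 1) (e 3)) [] (e 4) ∧
      ((b = true ∧ pair (e 3) (e 4) ∈ G) ∨ (b = false ∧ pair (e 3) (e 4) ∉ G)) := by
    refine ((h.hI.reindex ![0, 2, 3]).congr fun e => ?_).and
      (((h.hrho.reindex ![3, 4]).congr fun e => ?_).and
        (((hr2.reindex ![0, 1, 3, 4]).congr fun e => ?_).and
          ((hG.reindex ![3, 4]).congr fun e => ?_)))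
    · simp
    · simp
    · rfl
    · simp
  have h2 := nexp_ex2 (R := fun (e : Fin 3 → List Bool) x α => x = I (e 0).length (e 2).length ∧
      α.length = rho x.length ∧
      Relation.ReflTransGen (KStep I F key rho mm (e 0).length (e 1) x) [] α ∧
      ((b = true ∧ pair x α ∈ G) ∨ (b = false ∧ pair x α ∉ G))) h1
    (g := fun n => ((2 * n) ^ d + d) ^ c + c + ((2 * n) ^ d + d))
    (((((PolyB.const 2).mul PolyB.id).comp_pow d).comp_pow c).add
      (((PolyB.const 2).mul PolyB.id).comp_pow d))
    (fun a b hab => by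
      have h3 : (2 * a) ^ d + d ≤ (2 * b) ^ d + d :=
        Nat.add_le_add_right (Nat.pow_le_pow_left (by omega) d) d
      exact Nat.add_le_add (Nat.add_le_add_right (Nat.pow_le_pow_left h3 c) c) h3) (by
      rintro e x α ⟨rfl, h4, -, -⟩
      have h5 := len_le_size e 0
      have h6 := len_le_size e 2
      have h7 : (I (e 0).length (e 2).length).length ≤ (2 * size e) ^ d + d :=
        (hd _ _).trans (Nat.add_le_add_right (Nat.pow_le_pow_left (by omega) d) d)
      have h8 := (hc (I (e 0).length (e 2).length).length).trans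
        (Nat.add_le_add_right (Nat.pow_le_pow_left h7 c) c)
      constructor
      · show _ ≤ ((2 * size e) ^ d + d) ^ c + c + ((2 * size e) ^ d + d)
        omega
      · rw [h4]
        show _ ≤ ((2 * size e) ^ d + d) ^ c + c + ((2 * size e) ^ d + d)
        omega)
  refine h2.congr fun e => ?_
  unfold BitC
  constructor
  · rintro ⟨x, α, rfl, h4, h5, h6⟩; exact ⟨α, h4, h5, h6⟩
  · rintro ⟨α, h4, h5, h6⟩; exact ⟨_, α, rfl, h4, h5, h6⟩

end Pool.Agent.LibPow85
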