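import Pool.Agent.LibDual85.Rev
import Pool.Agent.LibPow85.Fact18

/-! Task LD-19. -/

namespace Pool.Agent.LibPow85

open Function Pool.Agent.LibNexp Pool.Agent.LibBHN
open Pool.Agent.LibDual85 hiding FSet NoCert KStep BitC CStep Prot RelB

variable {O : List Bool → Bool}

variable {I : ℕ → ℕ → List Bool} {F G : Lang} {key : List Bool → List Bool} {rho mm : ℕ → ℕ}

theorem fa19_bit (h : Prot O I F G key rho mm) (b : Bool) :
    NEXP O fun e : Fin 4 → List Bool =>
      BitC I F G key rho mm (e 0).length (e 1) (ones (e 2).length) b := by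
  have h1 : NEXP O fun e : Fin 5 → List Bool => e 4 = ones (e 2).length ∧
      BitC I F G key rho mm (e 0).length (e 1) (e 4) b := by
    refine (nexp_ones 2 4).and (((nexp_bitC h b).reindex ![0, 1, 4]).congr fun e => ?_)
    simp
  have h2 := nexp_ex (R := fun (e : Fin 4 → List Bool) z => z = ones (e 2).length ∧
      BitC I F G key rho mm (e 0).length (e 1) z b) h1 (g := fun n => n) PolyB.id (by
      rintro e z ⟨rfl, -⟩
      have := len_le_size e 2
      simpa using this)
  refine h2.congr fun e => ?_
  constructor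
  · rintro ⟨z, rfl, h3⟩; exact h3
  · intro h3; exact ⟨_, rfl, h3⟩

theorem fa19_len : NEXP O fun e : Fin 2 → List Bool => (e 1).length ≤ (e 0).length + 1 := by
  have h1 : NEXP O fun e : Fin 3 → List Bool => (e 2).length = 1 * (e 0).length + 1 ∧
      (e 1).length ≤ (e 2).length := (nexp_lin 1 1 0 2).and (nexp_lenLe 1 2)
  have h2 := nexp_ex (R := fun (e : Fin 2 → List Bool) s => s.length = 1 * (e 0).length + 1 ∧
      (e 1).length ≤ s.length) h1 (g := fun n => n + 1) (PolyB.id.add (PolyB.const 1)) (by
      rintro e s ⟨h3, -⟩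
      have := len_le_size e 0
      show _ ≤ size e + 1
      omega)
  refine h2.congr fun e => ?_
  constructor
  · rintro ⟨s, h3, h4⟩; omega
  · intro h3
    exact ⟨List.replicate ((e 0).length + 1) true, by simp, by simpa using h3⟩

theorem nexp_cstep (h : Prot O I F G key rho mm) :
    NEXP O fun e : Fin 4 → List Bool => CStep I F G key rho mm (e 0).length (e 1) (e 2) (e 3) := by
  have h1 : NEXP O fun e : Fin 4 → List Bool =>
      ((e 3 = e 2 ++ [true] ∧ BitC I F G key rho mm (e 0).length (e 1) (ones (e 2).length) true) ∨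
        (e 3 = e 2 ++ [false] ∧ BitC I F G key rho mm (e 0).length (e 1) (ones (e 2).length) false)) :=
    ((nexp_snoc true 2 3).and (fa19_bit h true)).or ((nexp_snoc false 2 3).and (fa19_bit h false))
  have h2 : NEXP O fun e : Fin 4 → List Bool => (e 3).length ≤ (e 0).length + 1 := by
    refine ((fa19_len (O := O)).reindex ![0, 3]).congr fun e => ?_
    simp
  refine (h2.and h1).congr fun e => ?_
  unfold CStep
  refine and_congr_right fun _ => ?_
  constructor
  · rintro (h3 | h3)
    · exact ⟨true, h3⟩
    · exact ⟨false, h3⟩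
  · rintro ⟨b, h3⟩
    cases b
    · exact Or.inr h3
    · exact Or.inl h3

end Pool.Agent.LibPow85
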