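import Pool.Agent.LibPow85.Fact

/-! From queries to advice: definitions. -/

namespace Pool.Agent.LibPow85

open Function Pool.Agent.LibNexp Pool.Agent.LibBHN
open Pool.Agent.LibDual85 hiding FSet NoCert KStep BitC CStep Prot RelB

/-- The final relation: the advice `a` is the number of facts. -/
def RelB (I : ℕ → ℕ → List Bool) (F G K : Lang) (key : List Bool → List Bool) (rho mm : ℕ → ℕ)
    (x a : List Bool) : Prop :=
  ∃ t w : List Bool, (t.length = mm x.length + 1 ∧ ∃ z, t = a ++ z ∧ z = z.flatMap fun _ => [false]) ∧
    w.length = x.length + 1 ∧ Relation.ReflTransGen (CStep I F G key rho mm x.length t) [] w ∧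
    val w ≤ cnt x.length fun y => y ∈ K ∧ y ≠ x

end Pool.Agent.LibPow85
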