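import Pool.Agent.LibBHN.All
import Pool.Agent.LibPow85.AdvBDefs
import Pool.Agent.LibPow85.Fact22

/-! Task LD-25. -/

namespace Pool.Agent.LibPow85

open Function Pool.Agent.LibNexp Pool.Agent.LibBHN
open Pool.Agent.LibDual85 hiding FSet NoCert KStep BitC CStep Prot RelB

variable {O : List Bool → Bool}

variable {I : ℕ → ℕ → List Bool} {F G K : Lang} {key : List Bool → List Bool} {rho mm : ℕ → ℕ}

private theorem advB25_val_append (a : List Bool) {z : List Bool}
    (hz : z = z.flatMap fun _ => [false]) : val (a ++ z) = val a := by
  induction a with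
  | nil =>
    rw [List.nil_append, hz, val_flat_false]
    rfl
  | cons b a ih => simp only [List.cons_append, val, ih]

private theorem advB25_flat (k : ℕ) :
    List.replicate k false = (List.replicate k false).flatMap fun _ => [false] := by
  induction k with
  | zero => rfl
  | succ k ih =>
    rw [List.replicate_succ, List.flatMap_cons, ← ih]
    rfl

theorem relB_iff (h : Prot O I F G key rho mm)
    (hL : ∀ n i, i ≤ n → ((bits (n + 1) (cnt n fun y => y ∈ K))[i]? = some true ↔
      pair (I n i) (kans F key (I n i) (rho (I n i).length)) ∈ G)) {x a : List Bool}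
    (hal : a.length ≤ mm x.length + 1)
    (ha : val a = cnt (mm x.length) (FSet I F key rho x.length)) :
    RelB I F G K key rho mm x a ↔ x ∉ K := by
  have hN : cnt x.length (fun y => y ∈ K) < 2 ^ (x.length + 1) := by
    have h1 := cnt_le x.length (fun y => y ∈ K)
    have h2 : 0 < 2 ^ x.length := by positivity
    rw [pow_succ]
    omega
  have hbits : ∀ i ≤ x.length,
      (bits (x.length + 1) (cnt x.length fun y => y ∈ K))[i]? = some true ↔
        pair (I x.length i) (kans F key (I x.length i) (rho (I x.length i).length)) ∈ G := by
    intro i hi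
    exact hL x.length i hi
  constructor
  · rintro ⟨t, w, ⟨htl, z, rfl, hz⟩, hwl, hw, hv⟩ hx
    have ht : val (a ++ z) = cnt (mm x.length) (FSet I F key rho x.length) := by
      rw [advB25_val_append a hz, ha]
    have h1 := (census_iff h hN htl ht hbits w).1 ⟨hwl, hw⟩
    rw [h1, val_bits hN] at hv
    have h2 := cnt_mem (P := fun y => y ∈ K) hx
    omega
  · intro hx
    have hz := advB25_flat (mm x.length + 1 - a.length)
    have htl : (a ++ List.replicate (mm x.length + 1 - a.length) false).length =
        mm x.length + 1 := by
      rw [List.length_append, List.length_replicate]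
      omega
    have ht : val (a ++ List.replicate (mm x.length + 1 - a.length) false) =
        cnt (mm x.length) (FSet I F key rho x.length) := by
      rw [advB25_val_append a hz, ha]
    obtain ⟨h1, h2⟩ := (census_iff h hN htl ht hbits _).2 rfl
    refine ⟨_, _, ⟨htl, _, rfl, hz⟩, h1, h2, ?_⟩
    rw [val_bits hN, cnt_notMem (P := fun y => y ∈ K) hx]

end Pool.Agent.LibPow85
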