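import Pool.Agent.LibQry85.Defs
import Pool.Agent.LibDual85.AdvBDefs
import Pool.Agent.LibBHN.Str
import Pool.Agent.LibDual85.Defs

/-!
Queries at the polynomial scale: definitions.
-/

namespace Pool.Agent.LibPow85

open Function Pool.Agent.LibNexp Pool.Agent.LibBHN Pool.Agent.LibQry85
open Pool.Agent.LibDual85 hiding FSet NoCert KStep BitC CStep Prot RelB

variable {O : List Bool → Bool}

/-- The integer part of `(n + 1) ^ α`. -/
noncomputable def fpow (α : ℝ) (n : ℕ) : ℕ := ⌊((n : ℝ) + 1) ^ α⌋₊

/-- The least `t` with `(m + 2) ^ q ≤ (t + 1) ^ j`. -/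
noncomputable def tt (j q m : ℕ) : ℕ := sInf {t | (m + 2) ^ q ≤ (t + 1) ^ j}

/-- The number of binary digits. -/
def dig (m : ℕ) : ℕ := Nat.log 2 (m + 1) + 1

/-- The question for the bit number `i` of the census at the length `m`. -/
noncomputable def inpP (j q m i : ℕ) : List Bool :=
  pair (bits (dig m) m) (bits (dig m) (min i m) ++ ones (tt j q m))

end Pool.Agent.LibPow85
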