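import Pool.Agent.LibBHN.Misc
import Pool.Agent.LibPow85.Defs
import Pool.Agent.LibQry85.Defs

/-! Task PW-2: roots from above. -/

namespace Pool.Agent.LibPow85

open Function Pool.Agent.LibNexp Pool.Agent.LibBHN Pool.Agent.LibQry85
open Pool.Agent.LibDual85 hiding FSet NoCert KStep BitC CStep Prot RelB

variable {O : List Bool → Bool}

theorem tt_spec {j : ℕ} (hj : 1 ≤ j) (q m : ℕ) : (m + 2) ^ q ≤ (tt j q m + 1) ^ j := by
  have hne : {t | (m + 2) ^ q ≤ (t + 1) ^ j}.Nonempty := by
    refine ⟨(m + 2) ^ q, ?_⟩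
    show (m + 2) ^ q ≤ ((m + 2) ^ q + 1) ^ j
    exact le_trans (Nat.le_succ _) (Nat.le_self_pow (by omega) _)
  exact Nat.sInf_mem hne

theorem tt_lt {j : ℕ} (hj : 1 ≤ j) (q m : ℕ) : tt j q m ^ j < (m + 2) ^ q := by
  rcases Nat.eq_zero_or_pos (tt j q m) with h | h
  · rw [h, zero_pow (by omega)]
    positivity
  · have h1 : tt j q m - 1 < sInf {t | (m + 2) ^ q ≤ (t + 1) ^ j} := by
      show tt j q m - 1 < tt j q m
      omega
    have h2 := Nat.notMem_of_lt_sInf h1
    have h3 : ¬ (m + 2) ^ q ≤ (tt j q m - 1 + 1) ^ j := h2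
    rw [Nat.sub_add_cancel h] at h3
    omega

private theorem Tt_eq {j : ℕ} (hj : 1 ≤ j) (q m t : ℕ) (h1 : (m + 2) ^ q ≤ (t + 1) ^ j)
    (h2 : t ^ j < (m + 2) ^ q) : t = tt j q m := by
  have h3 : tt j q m ≤ t := Nat.sInf_le h1
  have h4 : t < tt j q m + 1 := lt_of_pow_lt_pow_left₀ j (Nat.zero_le _)
    (lt_of_lt_of_le h2 (tt_spec hj q m))
  omega

theorem constr_tt (O : List Bool → Bool) {j : ℕ} (hj : 1 ≤ j) (q : ℕ) : Constr O (tt j q) := by
  apply constr_of_nexp
  have h1 : NEXP O fun e : Fin 7 → List Bool =>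
      (e 2).length = 1 * (e 0).length + 2 ∧ (e 3).length = (e 2).length ^ q + 0 ∧
      (e 4).length = 1 * (e 1).length + 1 ∧ (e 5).length = (e 4).length ^ j + 0 ∧
      (e 6).length = (e 1).length ^ j + 1 ∧ (e 3).length ≤ (e 5).length ∧
      (e 6).length ≤ (e 3).length :=
    (nexp_lin 1 2 0 2).and ((nexp_powAdd q 0 2 3).and ((nexp_lin 1 1 1 4).and
      ((nexp_powAdd j 0 4 5).and ((nexp_powAdd j 1 1 6).and ((nexp_lenLe 3 5).and
        (nexp_lenLe 6 3))))))
  have h2 := nexp_exN (k := 2) (m := 5) (R := fun e z =>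
      (z 0).length = 1 * (e 0).length + 2 ∧ (z 1).length = (z 0).length ^ q + 0 ∧
      (z 2).length = 1 * (e 1).length + 1 ∧ (z 3).length = (z 2).length ^ j + 0 ∧
      (z 4).length = (e 1).length ^ j + 1 ∧ (z 1).length ≤ (z 3).length ∧
      (z 4).length ≤ (z 1).length) h1 (g := fun n => (n + 2) ^ (q + j + 1))
      ((PolyB.id.add (PolyB.const 2)).pow _)
      (fun a b hab => Nat.pow_le_pow_left (Nat.add_le_add_right hab 2) _) (by
    rintro e z ⟨h3, h4, h5, h6, h7, h8, h9⟩ i
    have hx := len_le_size e 0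
    have hy := len_le_size e 1
    have hq : ((e 0).length + 2) ^ q ≤ (size e + 2) ^ (q + j + 1) :=
      le_trans (Nat.pow_le_pow_left (Nat.add_le_add_right hx 2) _)
        (Nat.pow_le_pow_right (by omega) (by omega))
    have hj' : ((e 1).length + 1) ^ j ≤ (size e + 2) ^ (q + j + 1) :=
      le_trans (Nat.pow_le_pow_left (Nat.add_le_add hy (by omega : 1 ≤ 2)) _)
        (Nat.pow_le_pow_right (by omega) (by omega))
    have hs : size e + 2 ≤ (size e + 2) ^ (q + j + 1) := Nat.le_self_pow (by omega) _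
    show _ ≤ (size e + 2) ^ (q + j + 1)
    rw [one_mul] at h3 h5
    rw [add_zero, h3] at h4
    rw [add_zero, h5] at h6
    have e1 : (z 1).length ≤ (size e + 2) ^ (q + j + 1) := by rw [h4]; exact hq
    fin_cases i
    · show (z 0).length ≤ _; omega
    · exact e1
    · show (z 2).length ≤ _; omega
    · show (z 3).length ≤ _; rw [h6]; exact hj'
    · show (z 4).length ≤ _; omega)
  refine h2.congr fun e => ?_
  constructor
  · rintro ⟨z, h3, h4, h5, h6, h7, h8, h9⟩
    rw [one_mul] at h3 h5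
    rw [add_zero, h3] at h4
    rw [add_zero, h5] at h6
    apply Tt_eq hj
    · rw [h4, h6] at h8
      exact h8
    · rw [h4, h7] at h9
      omega
  · intro h3
    refine ⟨![ones ((e 0).length + 2), ones (((e 0).length + 2) ^ q), ones ((e 1).length + 1),
      ones (((e 1).length + 1) ^ j), ones ((e 1).length ^ j + 1)], ?_⟩
    have h4 := tt_spec hj q (e 0).length
    have h5 := tt_lt hj q (e 0).length
    rw [← h3] at h4 h5
    refine ⟨?_, ?_, ?_, ?_, ?_, ?_, ?_⟩
    · simp
    · simp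
    · simp
    · simp
    · simp
    · simpa using h4
    · show (ones ((e 1).length ^ j + 1)).length ≤ (ones (((e 0).length + 2) ^ q)).length
      have h6 : ∀ n, (ones n).length = n := by intro n; simp
      rw [h6, h6]
      omega

theorem tt_poly {j : ℕ} (hj : 1 ≤ j) (q : ℕ) : PolyB (tt j q) := by
  refine ((PolyB.id.add (PolyB.const 2)).pow q).mono fun m => ?_
  exact le_trans (Nat.le_self_pow (by omega) _) (tt_lt hj q m).le

end Pool.Agent.LibPow85
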