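import Pool.Agent.LibDual85.Log
import Pool.Agent.LibDual85.Rev
import Pool.Agent.LibPow85.Tt

/-! Task PW-3: the questions. -/

namespace Pool.Agent.LibPow85

open Function Pool.Agent.LibNexp Pool.Agent.LibBHN Pool.Agent.LibQry85
open Pool.Agent.LibDual85 hiding FSet NoCert KStep BitC CStep Prot RelB

variable {O : List Bool → Bool}

private theorem lt_pow_dig (m : ℕ) : m < 2 ^ dig m := by
  have := Nat.lt_pow_succ_log_self (b := 2) (by norm_num) (m + 1)
  unfold dig
  omega

private theorem dig_le (m : ℕ) : dig m ≤ m + 1 := by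
  unfold dig
  have h : Nat.log 2 (m + 1) < m + 1 := Nat.log_lt_self 2 (by omega)
  omega

/-- The relation between the parts of a question. -/
private def PartsP (j q : ℕ) (e : Fin 3 → List Bool) (z : Fin 5 → List Bool) : Prop :=
  (((z 0).length = 1 * Nat.log 2 ((e 0).length + 1) + 1 ∧
    (z 1).length = 1 * Nat.log 2 ((e 0).length + 1) + 1) ∧
    (val (z 0) = (e 0).length ∧ val (z 1) = (z 2).length)) ∧
  ((((z 2).length = 1 * (e 1).length + 0 ∧ (e 1).length ≤ (e 0).length) ∨
    ((z 2).length = 1 * (e 0).length + 0 ∧ (e 0).length ≤ (e 1).length)) ∧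
    (z 3 = ones (z 3).length ∧ (z 3).length = tt j q (e 0).length)) ∧
  (z 4 = z 1 ++ z 3 ∧ e 2 = pair (z 0) (z 4))

theorem nexp_inpP (O : List Bool → Bool) {j : ℕ} (hj : 1 ≤ j) (q : ℕ) :
    NEXP O fun e : Fin 3 → List Bool => e 2 = inpP j q (e 0).length (e 1).length := by
  have h1 : NEXP O fun e : Fin 8 → List Bool =>
      (((e 3).length = 1 * Nat.log 2 ((e 0).length + 1) + 1 ∧
        (e 4).length = 1 * Nat.log 2 ((e 0).length + 1) + 1) ∧
        (val (e 3) = (e 0).length ∧ val (e 4) = (e 5).length)) ∧
      ((((e 5).length = 1 * (e 1).length + 0 ∧ (e 1).length ≤ (e 0).length) ∨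
        ((e 5).length = 1 * (e 0).length + 0 ∧ (e 0).length ≤ (e 1).length)) ∧
        (e 6 = ones (e 6).length ∧ (e 6).length = tt j q (e 0).length)) ∧
      (e 7 = e 4 ++ e 6 ∧ e 2 = pair (e 3) (e 7)) :=
    (((nexp_logMul 1 1 0 3).and (nexp_logMul 1 1 0 4)).and
      ((nexp_valLen 3 0).and (nexp_valLen 4 5))).and
    (((((nexp_lin 1 0 1 5).and (nexp_lenLe 1 0)).or
      ((nexp_lin 1 0 0 5).and (nexp_lenLe 0 1))).and
      ((nexp_ones 6 6).and ((constr_tt O hj q).nexp 0 6))).and
    ((nexp_append 4 6 7).and (nexp_pair 3 7 2)))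
  refine (nexp_exN (k := 3) (m := 5) (R := PartsP j q) h1 (g := fun n => n) PolyB.id
    monotone_id ?_).congr fun e => ?_
  · rintro e z ⟨-, ⟨h2, -⟩, h3, h4⟩ l
    have l0 := len_le_size e 0
    have l1 := len_le_size e 1
    have l2 := len_le_size e 2
    have b3 := congrArg List.length h3
    have b4 := congrArg List.length h4
    rw [length_pair] at b4
    rw [List.length_append] at b3
    show _ ≤ size e
    fin_cases l
    · show (z 0).length ≤ _; omega
    · show (z 1).length ≤ _; omega
    · show (z 2).length ≤ _; omega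
    · show (z 3).length ≤ _; omega
    · show (z 4).length ≤ _; omega
  · have hd : dig (e 0).length = 1 * Nat.log 2 ((e 0).length + 1) + 1 := by
      unfold dig
      omega
    have hmin : min (e 1).length (e 0).length < 2 ^ dig (e 0).length :=
      lt_of_le_of_lt (min_le_right _ _) (lt_pow_dig _)
    constructor
    · rintro ⟨z, ⟨⟨h2, h3⟩, h4, h5⟩, ⟨h6, h7, h8⟩, h9, h10⟩
      rw [← hd] at h2 h3
      have e0 : z 0 = bits (dig (e 0).length) (e 0).length := by
        refine val_inj (by rw [h2, length_bits]) ?_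
        rw [val_bits (lt_pow_dig _), h4]
      have h11 : (z 2).length = min (e 1).length (e 0).length := by
        rcases h6 with ⟨h6, h6'⟩ | ⟨h6, h6'⟩
        · rw [min_eq_left h6']; omega
        · rw [min_eq_right h6']; omega
      have e1 : z 1 = bits (dig (e 0).length) (min (e 1).length (e 0).length) := by
        refine val_inj (by rw [h3, length_bits]) ?_
        rw [val_bits hmin, h5, h11]
      rw [h10, h9, e0, e1, h7, h8]
      rfl
    · intro h
      refine ⟨![bits (dig (e 0).length) (e 0).length,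
        bits (dig (e 0).length) (min (e 1).length (e 0).length),
        ones (min (e 1).length (e 0).length), ones (tt j q (e 0).length),
        bits (dig (e 0).length) (min (e 1).length (e 0).length) ++ ones (tt j q (e 0).length)],
        ⟨⟨?_, ?_⟩, ?_, ?_⟩, ⟨?_, ?_, ?_⟩, ?_, ?_⟩
      · show (bits _ _).length = _
        rw [length_bits, hd]
      · show (bits _ _).length = _
        rw [length_bits, hd]
      · show val (bits _ _) = _
        rw [val_bits (lt_pow_dig _)]
      · show val (bits _ _) = (List.replicate _ true).length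
        rw [val_bits hmin, List.length_replicate]
      · show ((List.replicate _ true).length = _ ∧ _) ∨ ((List.replicate _ true).length = _ ∧ _)
        rw [List.length_replicate]
        rcases le_total (e 1).length (e 0).length with h2 | h2
        · left
          rw [min_eq_left h2]
          omega
        · right
          rw [min_eq_right h2]
          omega
      · show ones _ = ones (List.replicate _ true).length
        rw [List.length_replicate]
      · show (List.replicate _ true).length = _
        rw [List.length_replicate]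
      · rfl
      · exact h

theorem length_inpP (j q m i : ℕ) : (inpP j q m i).length = 3 * dig m + 2 + tt j q m := by
  unfold inpP
  rw [length_pair, List.length_append, length_bits, length_bits, List.length_replicate]
  omega

theorem inpP_inj {j q m i m' i' : ℕ} (hi : i ≤ m) (hi' : i' ≤ m')
    (h : inpP j q m i = inpP j q m' i') : m = m' ∧ i = i' := by
  obtain ⟨h1, h2⟩ := pair_injective h
  have h3 := congrArg List.length h1
  have h4 := congrArg val h1
  rw [length_bits, length_bits] at h3
  rw [val_bits (lt_pow_dig _), val_bits (lt_pow_dig _)] at h4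
  subst h4
  refine ⟨rfl, ?_⟩
  have h5 := congrArg val (List.append_cancel_right h2)
  rw [min_eq_left hi, min_eq_left hi', val_bits (lt_of_le_of_lt hi (lt_pow_dig _)),
    val_bits (lt_of_le_of_lt hi' (lt_pow_dig _))] at h5
  exact h5

private theorem lenP {j : ℕ} (hj : 1 ≤ j) (q : ℕ) : ∃ f : ℕ → ℕ, PolyB f ∧
    ∀ n i, (inpP j q n i).length ≤ f n := by
  refine ⟨fun n => 3 * (n + 1) + (2 + tt j q n), ((PolyB.const 3).mul (PolyB.id.add
    (PolyB.const 1))).add ((PolyB.const 2).add (tt_poly hj q)), fun n i => ?_⟩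
  have := dig_le n
  rw [length_inpP]
  show _ ≤ 3 * (n + 1) + (2 + tt j q n)
  omega

theorem inpP_bound {j : ℕ} (hj : 1 ≤ j) (q : ℕ) :
    ∃ c : ℕ, ∀ n i, (inpP j q n i).length ≤ (n + i) ^ c + c := by
  obtain ⟨f, ⟨c, hc⟩, h⟩ := lenP hj q
  refine ⟨c, fun n i => (h n i).trans ((hc n).trans ?_)⟩
  exact Nat.add_le_add_right (Nat.pow_le_pow_left (Nat.le_add_right n i) c) c

/-- A suitable length of the padded facts. -/
theorem exists_mmP (O : List Bool → Bool) {j : ℕ} (hj : 1 ≤ j) (q : ℕ) {rho : ℕ → ℕ}
    (hrho : PolyB rho) :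
    ∃ mm : ℕ → ℕ, (NEXP O fun e : Fin 2 → List Bool => (e 1).length = mm (e 0).length) ∧
      PolyB mm ∧ ∀ n i, i ≤ n →
        2 * (inpP j q n i).length + rho (inpP j q n i).length + 3 ≤ mm n := by
  obtain ⟨c, hc⟩ := hrho
  obtain ⟨f, hf, hlen⟩ := lenP hj q
  have h4 : PolyB fun n => 2 * f n + ((f n ^ c + c) + 3) :=
    ((PolyB.const 2).mul hf).add ((hf.comp_pow c).add (PolyB.const 3))
  obtain ⟨D, hD⟩ := h4
  refine ⟨fun n => n ^ D + D, nexp_powAdd D D 0 1, ⟨D, fun n => le_rfl⟩, fun n i hi => ?_⟩
  have h5 := hc (inpP j q n i).length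
  have h6 := Nat.pow_le_pow_left (hlen n i) c
  have h7 : 2 * f n + ((f n ^ c + c) + 3) ≤ n ^ D + D := hD n
  have h8 := hlen n i
  show _ ≤ n ^ D + D
  omega

end Pool.Agent.LibPow85
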