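import Pool.Agent.LibNexp.PowFinal
import Pool.Agent.LibPow85.InpP

/-! Task PW-5: the length of the advice. -/

namespace Pool.Agent.LibPow85

open Function Pool.Agent.LibNexp Pool.Agent.LibBHN Pool.Agent.LibQry85
open Pool.Agent.LibDual85 hiding FSet NoCert KStep BitC CStep Prot RelB

/-- the binary logarithm is smaller than every power -/
private theorem growP_log {ε : ℝ} (hε : 0 < ε) (m : ℕ) :
    (Nat.log 2 (m + 1) : ℝ) ≤ 1 / (ε * Real.log 2) * ((m : ℝ) + 1) ^ ε := by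
  have hm : (0 : ℝ) < (m : ℝ) + 1 := by positivity
  have hl2 : 0 < Real.log 2 := Real.log_pos (by norm_num)
  have h1 : (2 : ℝ) ^ (Nat.log 2 (m + 1)) ≤ (m : ℝ) + 1 := by
    exact_mod_cast Nat.pow_log_le_self 2 (by omega : m + 1 ≠ 0)
  have h2 : (Nat.log 2 (m + 1) : ℝ) * Real.log 2 ≤ Real.log ((m : ℝ) + 1) := by
    have h3 := Real.log_le_log (by positivity) h1
    rwa [Real.log_pow] at h3
  have h4 := Real.log_le_rpow_div hm.le hε
  have h5 : (Nat.log 2 (m + 1) : ℝ) * Real.log 2 ≤ ((m : ℝ) + 1) ^ ε / ε := h2.trans h4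
  have h6 : 1 / (ε * Real.log 2) * ((m : ℝ) + 1) ^ ε = ((m : ℝ) + 1) ^ ε / ε / Real.log 2 := by
    field_simp
  rw [h6, le_div_iff₀ hl2]
  exact h5

theorem fpow_inpP_le {i j q : ℕ} (hj : 1 ≤ j) (hq : 1 ≤ q) : ∃ C : ℝ, ∀ m k : ℕ,
    (fpow ((i : ℝ) / q) (inpP j q m k).length : ℝ) ≤ C * ((m : ℝ) + 1) ^ ((i : ℝ) / j) := by
  have hj0 : (0 : ℝ) < j := by exact_mod_cast hj
  have hq0 : (0 : ℝ) < q := by exact_mod_cast hq
  have hi0 : (0 : ℝ) ≤ i := Nat.cast_nonneg i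
  set e : ℝ := (q : ℝ) / j with he
  have he0 : 0 < e := div_pos hq0 hj0
  have hl2 : 0 < Real.log 2 := Real.log_pos (by norm_num)
  set C0 : ℝ := 3 * (1 / (e * Real.log 2)) + 6 + 2 ^ e with hC0
  have hC0p : 0 < C0 := by positivity
  refine ⟨C0 ^ ((i : ℝ) / q), fun m k => ?_⟩
  have hm1 : (1 : ℝ) ≤ (m : ℝ) + 1 := one_le_base m
  have hm0 : (0 : ℝ) < (m : ℝ) + 1 := by linarith
  have hp1 : (1 : ℝ) ≤ ((m : ℝ) + 1) ^ e := Real.one_le_rpow hm1 he0.le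
  have htt : (tt j q m : ℝ) ≤ 2 ^ e * ((m : ℝ) + 1) ^ e := by
    have h1 : ((tt j q m : ℝ)) ^ j ≤ ((m : ℝ) + 2) ^ q := by
      exact_mod_cast (tt_lt hj q m).le
    have h2 : (tt j q m : ℝ) = (((tt j q m : ℝ)) ^ j) ^ ((1 : ℝ) / j) := by
      rw [← Real.rpow_natCast, ← Real.rpow_mul (Nat.cast_nonneg _), mul_one_div,
        div_self hj0.ne', Real.rpow_one]
    have h3 : (((tt j q m : ℝ)) ^ j) ^ ((1 : ℝ) / j) ≤ (((m : ℝ) + 2) ^ q) ^ ((1 : ℝ) / j) :=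
      Real.rpow_le_rpow (by positivity) h1 (by positivity)
    have h4 : (((m : ℝ) + 2) ^ q) ^ ((1 : ℝ) / j) = ((m : ℝ) + 2) ^ e := by
      rw [← Real.rpow_natCast, ← Real.rpow_mul (by positivity), mul_one_div]
    have h5 : ((m : ℝ) + 2) ^ e ≤ (2 * ((m : ℝ) + 1)) ^ e :=
      Real.rpow_le_rpow (by positivity) (by linarith) he0.le
    rw [Real.mul_rpow (by norm_num) hm0.le] at h5
    rw [h2]
    exact h3.trans (h4.le.trans h5)
  have hlen : ((inpP j q m k).length : ℝ) + 1 ≤ C0 * ((m : ℝ) + 1) ^ e := by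
    rw [length_inpP, dig]
    push_cast
    have h1 := growP_log he0 m
    have h2 : C0 * ((m : ℝ) + 1) ^ e = 3 * (1 / (e * Real.log 2) * ((m : ℝ) + 1) ^ e) +
        6 * ((m : ℝ) + 1) ^ e + 2 ^ e * ((m : ℝ) + 1) ^ e := by rw [hC0]; ring
    rw [h2]
    linarith
  have hfl : (fpow ((i : ℝ) / q) (inpP j q m k).length : ℝ) ≤
      (((inpP j q m k).length : ℝ) + 1) ^ ((i : ℝ) / q) :=
    Nat.floor_le (by positivity)
  refine hfl.trans ?_
  have h1 : (((inpP j q m k).length : ℝ) + 1) ^ ((i : ℝ) / q) ≤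
      (C0 * ((m : ℝ) + 1) ^ e) ^ ((i : ℝ) / q) :=
    Real.rpow_le_rpow (by positivity) hlen (by positivity)
  refine h1.trans (le_of_eq ?_)
  rw [Real.mul_rpow hC0p.le (by positivity), ← Real.rpow_mul hm0.le]
  congr 2
  rw [he]
  field_simp

theorem growth {i j q : ℕ} (hij : i < j) (hq : 1 ≤ q) (c : ℕ) : ∃ C : ℝ, ∀ n : ℕ,
    ((Nat.log 2 (∑ k ∈ Finset.range (n + 1),
      2 ^ (c * fpow ((i : ℝ) / q) (inpP j q n k).length + c)) + 1 : ℕ) : ℝ) ≤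
      C * ((n : ℝ) + 1) ^ (max ((i : ℝ) / j) (1 / 2)) := by
  obtain ⟨C, hC⟩ := fpow_inpP_le (i := i) (j := j) (q := q) (by omega) hq
  have hl2 : 0 < Real.log 2 := Real.log_pos (by norm_num)
  refine ⟨1 / (1 / 2 * Real.log 2) + 1 + c * |C| + c, fun n => ?_⟩
  have hn1 : (1 : ℝ) ≤ (n : ℝ) + 1 := one_le_base n
  set E : ℕ := c * fpow ((i : ℝ) / q) (inpP j q n 0).length + c with hE
  set μ : ℝ := max ((i : ℝ) / j) (1 / 2) with hμ
  have hμ0 : 0 ≤ μ := le_trans (by norm_num) (le_max_right _ _)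
  have hsum : ∑ k ∈ Finset.range (n + 1),
      2 ^ (c * fpow ((i : ℝ) / q) (inpP j q n k).length + c) = (n + 1) * 2 ^ E := by
    rw [Finset.sum_congr rfl (g := fun _ => 2 ^ E), Finset.sum_const, Finset.card_range,
      smul_eq_mul]
    intro k _
    rw [hE, length_inpP, length_inpP]
  have hlog : Nat.log 2 ((n + 1) * 2 ^ E) < Nat.log 2 (n + 1) + 1 + E := by
    have h0 : n + 1 < 2 ^ (Nat.log 2 (n + 1) + 1) := Nat.lt_pow_succ_log_self (by norm_num) _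
    have h2E : 0 < 2 ^ E := by positivity
    refine Nat.log_lt_of_lt_pow (by positivity) ?_
    rw [pow_add 2 (Nat.log 2 (n + 1) + 1) E]
    exact Nat.mul_lt_mul_of_pos_right h0 h2E
  rw [hsum]
  have h1 : ((Nat.log 2 ((n + 1) * 2 ^ E) + 1 : ℕ) : ℝ) ≤ (Nat.log 2 (n + 1) : ℝ) + 1 + E := by
    exact_mod_cast hlog
  refine h1.trans ?_
  have h2 := growP_log (ε := 1 / 2) (by norm_num) n
  have h3 := hC n 0
  have h4 : ((n : ℝ) + 1) ^ (1 / 2 : ℝ) ≤ ((n : ℝ) + 1) ^ μ :=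
    Real.rpow_le_rpow_of_exponent_le hn1 (le_max_right _ _)
  have h5 : ((n : ℝ) + 1) ^ ((i : ℝ) / j) ≤ ((n : ℝ) + 1) ^ μ :=
    Real.rpow_le_rpow_of_exponent_le hn1 (le_max_left _ _)
  have h6 : (1 : ℝ) ≤ ((n : ℝ) + 1) ^ μ := Real.one_le_rpow hn1 hμ0
  have h7 : (E : ℝ) ≤ c * (|C| * ((n : ℝ) + 1) ^ μ) + c * ((n : ℝ) + 1) ^ μ := by
    rw [hE]
    push_cast
    have h8 : (c : ℝ) * (fpow ((i : ℝ) / q) (inpP j q n 0).length : ℝ) ≤
        c * (|C| * ((n : ℝ) + 1) ^ μ) := by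
      apply mul_le_mul_of_nonneg_left _ (Nat.cast_nonneg c)
      refine h3.trans ?_
      exact mul_le_mul (le_abs_self C) h5 (by positivity) (abs_nonneg C)
    have h9 : (c : ℝ) ≤ c * ((n : ℝ) + 1) ^ μ := le_mul_of_one_le_right (Nat.cast_nonneg c) h6
    linarith
  have h8 : 1 / (1 / 2 * Real.log 2) * ((n : ℝ) + 1) ^ (1 / 2 : ℝ) ≤
      1 / (1 / 2 * Real.log 2) * ((n : ℝ) + 1) ^ μ :=
    mul_le_mul_of_nonneg_left h4 (by positivity)
  have h9 : (1 / (1 / 2 * Real.log 2) + 1 + c * |C| + c) * ((n : ℝ) + 1) ^ μ =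
      1 / (1 / 2 * Real.log 2) * ((n : ℝ) + 1) ^ μ + ((n : ℝ) + 1) ^ μ +
        c * (|C| * ((n : ℝ) + 1) ^ μ) + c * ((n : ℝ) + 1) ^ μ := by ring
  rw [h9]
  linarith

end Pool.Agent.LibPow85
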