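import Pool.Agent.LibBHN.Misc
import Pool.Agent.LibPow85.Defs
import Pool.Agent.LibQry85.Defs

/-! Task PW-1: integer parts of powers. -/

namespace Pool.Agent.LibPow85

open Function Pool.Agent.LibNexp Pool.Agent.LibBHN Pool.Agent.LibQry85
open Pool.Agent.LibDual85 hiding FSet NoCert KStep BitC CStep Prot RelB

variable {O : List Bool → Bool}

theorem le_fpow {j q : ℕ} (hq : 1 ≤ q) (t n : ℕ) :
    t ≤ fpow ((j : ℝ) / q) n ↔ t ^ q ≤ (n + 1) ^ j := by
  have hq0 : (0 : ℝ) < q := by exact_mod_cast hq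
  unfold fpow
  rw [Nat.le_floor_iff (by positivity), div_eq_mul_inv, Real.rpow_mul (by positivity),
    Real.le_rpow_inv_iff_of_pos (by positivity) (by positivity) hq0, Real.rpow_natCast,
    Real.rpow_natCast]
  exact_mod_cast Iff.rfl

private theorem eq_fpow_iff {j q : ℕ} (hq : 1 ≤ q) (t n : ℕ) :
    t = fpow ((j : ℝ) / q) n ↔ t ^ q ≤ (n + 1) ^ j ∧ (n + 1) ^ j + 1 ≤ (t + 1) ^ q := by
  rw [← le_fpow hq, Nat.succ_le_iff, ← not_le, ← le_fpow hq]
  omega

private theorem lin_bd (a c S n : ℕ) (h : a ≤ S) (hc : c ≤ n) : (a + 1) ^ c + 1 ≤ (S + 1) ^ n + 1 :=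
  Nat.add_le_add_right ((Nat.pow_le_pow_left (by omega) c).trans
    (Nat.pow_le_pow_right (by omega) hc)) 1

theorem constr_fpow (O : List Bool → Bool) {j q : ℕ} (hq : 1 ≤ q) :
    Constr O (fpow ((j : ℝ) / q)) := by
  have h1 : NEXP O fun e : Fin 8 → List Bool =>
      (e 2).length = 1 * (e 0).length + 1 ∧ (e 3).length = (e 2).length ^ j + 0 ∧
      (e 4).length = (e 1).length ^ q + 0 ∧ (e 5).length = 1 * (e 1).length + 1 ∧
      (e 6).length = (e 5).length ^ q + 0 ∧ (e 7).length = 1 * (e 3).length + 1 ∧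
      (e 4).length ≤ (e 3).length ∧ (e 7).length ≤ (e 6).length :=
    (nexp_lin 1 1 0 2).and ((nexp_powAdd j 0 2 3).and ((nexp_powAdd q 0 1 4).and
      ((nexp_lin 1 1 1 5).and ((nexp_powAdd q 0 5 6).and ((nexp_lin 1 1 3 7).and
      ((nexp_lenLe 4 3).and (nexp_lenLe 7 6)))))))
  have h2 := nexp_exN (k := 2) (m := 6) (R := fun (e : Fin 2 → List Bool)
      (z : Fin 6 → List Bool) =>
      (z 0).length = 1 * (e 0).length + 1 ∧ (z 1).length = (z 0).length ^ j + 0 ∧
      (z 2).length = (e 1).length ^ q + 0 ∧ (z 3).length = 1 * (e 1).length + 1 ∧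
      (z 4).length = (z 3).length ^ q + 0 ∧ (z 5).length = 1 * (z 1).length + 1 ∧
      (z 2).length ≤ (z 1).length ∧ (z 5).length ≤ (z 4).length) h1
      (g := fun n => (n + 1) ^ (j + q + 1) + 1)
      (((PolyB.id.succ).pow (j + q + 1)).succ)
      (fun a b hab => Nat.add_le_add_right (Nat.pow_le_pow_left (Nat.add_le_add_right hab 1) _) 1)
      (by
        rintro e z ⟨h3, h4, h5, h6, h7, h8, -, -⟩ i
        have a0 := len_le_size e 0
        have a1 := len_le_size e 1
        have b1 := lin_bd (e 0).length 1 (size e) (j + q + 1) a0 (by omega)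
        have b2 := lin_bd (e 0).length j (size e) (j + q + 1) a0 (by omega)
        have b3 := lin_bd (e 1).length q (size e) (j + q + 1) a1 (by omega)
        have b4 := lin_bd (e 1).length 1 (size e) (j + q + 1) a1 (by omega)
        have b5 : (e 1).length ^ q ≤ ((e 1).length + 1) ^ q :=
          Nat.pow_le_pow_left (Nat.le_succ _) q
        rw [one_mul] at h3 h6 h8
        rw [h3] at h4
        rw [h6] at h7
        rw [pow_one] at b1 b4
        show _ ≤ (size e + 1) ^ (j + q + 1) + 1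
        fin_cases i
        · show (z 0).length ≤ _; omega
        · show (z 1).length ≤ _; omega
        · show (z 2).length ≤ _; omega
        · show (z 3).length ≤ _; omega
        · show (z 4).length ≤ _; omega
        · show (z 5).length ≤ _; omega)
  refine constr_of_nexp (h2.congr fun e => ?_)
  rw [eq_fpow_iff hq]
  constructor
  · rintro ⟨z, h3, h4, h5, h6, h7, h8, h9, h10⟩
    rw [one_mul] at h3 h6 h8
    rw [h3, add_zero] at h4
    rw [h6, add_zero] at h7
    rw [h5, h4, add_zero] at h9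
    rw [h8, h7, h4] at h10
    exact ⟨h9, h10⟩
  · rintro ⟨h3, h4⟩
    refine ⟨![ones ((e 0).length + 1), ones (((e 0).length + 1) ^ j), ones ((e 1).length ^ q),
      ones ((e 1).length + 1), ones (((e 1).length + 1) ^ q),
      ones (((e 0).length + 1) ^ j + 1)], ?_⟩
    have ho : ∀ n, (ones n).length = n := fun n => by simp
    simp only [Matrix.cons_val]
    simp only [ho, one_mul, add_zero]
    exact ⟨trivial, trivial, trivial, trivial, trivial, trivial, h3, h4⟩

theorem fpow_poly {α : ℝ} : PolyB (fpow α) := by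
  refine ((PolyB.id.succ).pow ⌈α⌉₊).mono fun n => ?_
  show ⌊((n : ℝ) + 1) ^ α⌋₊ ≤ (n + 1) ^ ⌈α⌉₊
  apply Nat.floor_le_of_le
  push_cast
  rw [← Real.rpow_natCast]
  exact Real.rpow_le_rpow_of_exponent_le (by linarith [(Nat.cast_nonneg n : (0 : ℝ) ≤ n)])
    (Nat.le_ceil α)

theorem fpow_mono {α : ℝ} (hα : 0 ≤ α) : Monotone (fpow α) := by
  intro a b hab
  apply Nat.floor_mono
  have : (a : ℝ) ≤ b := by exact_mod_cast hab
  exact Real.rpow_le_rpow (by positivity) (by linarith) hα

theorem one_le_fpow {α : ℝ} (hα : 0 ≤ α) (n : ℕ) : 1 ≤ fpow α n := by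
  apply Nat.le_floor
  push_cast
  exact Real.one_le_rpow (by linarith [(Nat.cast_nonneg n : (0 : ℝ) ≤ n)]) hα

end Pool.Agent.LibPow85
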