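import Pool.Agent.LibDual85.BitL
import Pool.Agent.LibDual85.KProt
import Pool.Agent.LibPow85.Floor
import Pool.Agent.LibPow85.InpP

/-! Task PW-4: the language of the bits. -/

namespace Pool.Agent.LibPow85

open Function Pool.Agent.LibNexp Pool.Agent.LibBHN Pool.Agent.LibQry85
open Pool.Agent.LibDual85 hiding FSet NoCert KStep BitC CStep Prot RelB

variable {O : List Bool → Bool}

/-- The queries of the protocol. -/
private def QP (K : Lang) (j q : ℕ) (x α : List Bool) : Prop :=
  ∃ z : Fin 3 → List Bool, ((x = inpP j q (z 0).length (z 1).length ∧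
    (z 1).length ≤ (z 0).length) ∧ z 2 = pair (z 0) (z 1)) ∧ (BitQ K (z 2) α ∨ BitF (z 2) α)

private theorem nexp_QP {K : Lang} (hK : K ∈ NEXPLang O) {j q : ℕ} (hj : 1 ≤ j) (hq : 1 ≤ q) :
    NEXP O fun e : Fin 2 → List Bool => QP K j q (e 0) (e 1) := by
  -- x, α | M, J, P
  have h1 : NEXP O fun e : Fin 5 → List Bool => ((e 0 = inpP j q (e 2).length (e 3).length ∧
      (e 3).length ≤ (e 2).length) ∧ e 4 = pair (e 2) (e 3)) ∧
      (BitQ K (e 4) (e 1) ∨ BitF (e 4) (e 1)) := by
    refine (((((nexp_inpP O hj q).reindex ![2, 3, 0]).congr fun e => ?_).and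
      (nexp_lenLe 3 2)).and (nexp_pair 2 3 4)).and
      ((((nexp_bitQ hK).or nexp_bitF).reindex ![4, 1]).congr fun e => ?_)
    · simp
    · simp
  refine nexp_exN (k := 2) (m := 3) (R := fun e z => ((e 0 = inpP j q (z 0).length (z 1).length ∧
    (z 1).length ≤ (z 0).length) ∧ z 2 = pair (z 0) (z 1)) ∧
    (BitQ K (z 2) (e 1) ∨ BitF (z 2) (e 1))) h1
    (g := fun n => 3 * (n + 1) ^ j + 2) (((PolyB.const 3).mul (PolyB.id.succ.pow j)).add
      (PolyB.const 2))
    (fun m n h => by
      have := Nat.pow_le_pow_left (Nat.succ_le_succ h) j
      simp only [Nat.succ_eq_add_one] at this ⊢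
      omega) ?_
  rintro e z ⟨⟨⟨a1, a2⟩, a3⟩, -⟩ i
  have l0 := len_le_size e 0
  have b1 := congrArg List.length a1
  rw [length_inpP] at b1
  have b3 := congrArg List.length a3
  rw [length_pair] at b3
  have h2 := tt_spec hj q (z 0).length
  have h3 : (z 0).length + 2 ≤ ((z 0).length + 2) ^ q := by
    calc (z 0).length + 2 = ((z 0).length + 2) ^ 1 := (pow_one _).symm
      _ ≤ _ := Nat.pow_le_pow_right (by omega) hq
  have h4 : (tt j q (z 0).length + 1) ^ j ≤ (size e + 1) ^ j :=
    Nat.pow_le_pow_left (by omega) j
  show _ ≤ 3 * (size e + 1) ^ j + 2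
  fin_cases i
  · show (z 0).length ≤ _; omega
  · show (z 1).length ≤ _; omega
  · show (z 2).length ≤ _; omega

theorem exists_langP {K : Lang} (hK : K ∈ NEXPLang O) {j q : ℕ} (hj : 1 ≤ j) (hq : 1 ≤ q) :
    ∃ L ∈ PQueryF (NEXPLang O) (fpow ((j : ℝ) / q)), ∀ n i, i ≤ n →
      (inpP j q n i ∈ L ↔ (bits (n + 1) (cnt n fun y => y ∈ K))[i]? = some true) := by
  classical
  obtain ⟨C, hC, hCR⟩ := rel_of_nexp (C := fun x α => QP K j q x α) (O := O) (nexp_QP hK hj hq)
  have hα : (0 : ℝ) ≤ (j : ℝ) / q := by positivity
  have hone := one_le_fpow hα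
  refine ⟨{x | (ans C x ((fpow ((j : ℝ) / q) x.length - 1) + 1)).getLast? = some true}, ?_, ?_⟩
  · have h1 := pqueryF_of_protocol hC (fun n => fpow ((j : ℝ) / q) n - 1)
    have h2 : (fun n => fpow ((j : ℝ) / q) n - 1 + 1) = fpow ((j : ℝ) / q) := by
      funext n
      have := hone n
      omega
    rw [h2] at h1
    exact h1
  · intro n i hi
    set x := inpP j q n i with hx
    set r := fpow ((j : ℝ) / q) x.length - 1 with hr
    have hxl := length_inpP j q n i
    rw [← hx] at hxl
    have hrn : n + 1 ≤ r := by
      have h1 : n + 2 ≤ fpow ((j : ℝ) / q) x.length := by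
        rw [le_fpow hq]
        exact (tt_spec hj q n).trans (Nat.pow_le_pow_left (by omega) j)
      omega
    set N := cnt n fun y => y ∈ K with hN
    have hlt : N < 2 ^ (n + 1) := by
      have := cnt_le n fun y => y ∈ K
      have h2 : 2 ^ n < 2 ^ (n + 1) := Nat.pow_lt_pow_right (by norm_num) (by omega)
      omega
    -- meaning of the queries
    have hQ : ∀ α : List Bool, pair x α ∈ C ↔
        (α.length ≤ n ∧ val (thr (n + 1) α) ≤ N) ∨
        BitF (pair (List.replicate n false) (List.replicate i false)) α := by
      intro α
      rw [hCR]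
      have hF : ∀ u v : List Bool, u.length = n → v.length = i → (BitF (pair u v) α ↔
          BitF (pair (List.replicate n false) (List.replicate i false)) α) := by
        intro u v hu hv
        by_cases h : n + 1 ≤ α.length
        · rw [bitF_iff (by omega), bitF_iff (by simpa using h), hu, hv, List.length_replicate,
            List.length_replicate]
        · constructor
          · rintro ⟨z, ⟨⟨a1, a2⟩, a3, a4⟩, a5, a6⟩
            obtain ⟨rfl, rfl⟩ := pair_injective a1
            have := congrArg List.length a2
            rw [List.length_append] at this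
            omega
          · rintro ⟨z, ⟨⟨a1, a2⟩, a3, a4⟩, a5, a6⟩
            obtain ⟨h1, h2⟩ := pair_injective a1
            have := congrArg List.length a2
            rw [List.length_append] at this
            have h3 := congrArg List.length h1
            rw [List.length_replicate] at h3
            omega
      constructor
      · rintro ⟨z, ⟨⟨a1, a2⟩, a3⟩, a4⟩
        obtain ⟨h1, h2⟩ := inpP_inj hi a2 a1
        rw [a3] at a4
        rcases a4 with h | h
        · left
          rw [bitQ_iff, ← h1] at h
          exact h
        · right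
          exact (hF _ _ h1.symm h2.symm).1 h
      · intro h
        refine ⟨![List.replicate n false, List.replicate i false,
          pair (List.replicate n false) (List.replicate i false)], ⟨⟨?_, ?_⟩, rfl⟩, ?_⟩
        · show x = inpP j q (List.replicate n false).length (List.replicate i false).length
          rw [List.length_replicate, List.length_replicate]
        · show (List.replicate i false).length ≤ (List.replicate n false).length
          rw [List.length_replicate, List.length_replicate]
          exact hi
        · show BitQ K (pair (List.replicate n false) (List.replicate i false)) α ∨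
            BitF (pair (List.replicate n false) (List.replicate i false)) α
          rcases h with h | h
          · left
            rw [bitQ_iff, List.length_replicate]
            exact h
          · exact Or.inr h
    have hFs : ∀ α : List Bool, α.length ≤ n →
        ¬ BitF (pair (List.replicate n false) (List.replicate i false)) α := by
      rintro α h1 ⟨z, ⟨⟨a1, a2⟩, a3, a4⟩, a5, a6⟩
      obtain ⟨h1, h2⟩ := pair_injective a1
      have := congrArg List.length a2
      rw [List.length_append] at this
      have h3 := congrArg List.length h1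
      rw [List.length_replicate] at h3
      omega
    have hs : ∀ l < n + 1, ans C x (l + 1) = ans C x l ++
        [decide (val (thr (n + 1) (ans C x l)) ≤ N)] := by
      intro l hl
      rw [ans]
      congr 2
      have h1 : (ans C x l).length ≤ n := by rw [length_ans]; omega
      have h2 : pair x (ans C x l) ∈ C ↔ val (thr (n + 1) (ans C x l)) ≤ N := by
        rw [hQ]
        constructor
        · rintro (h3 | h3)
          · exact h3.2
          · exact absurd h3 (hFs _ h1)
        · intro h3
          exact Or.inl ⟨h1, h3⟩
      simp only [h2]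
    obtain ⟨h3, h4⟩ := search hlt (a := ans C x) rfl hs (n + 1) le_rfl
    rw [Nat.sub_self, pow_zero, Nat.div_one] at h4
    have h5 : (ans C x (n + 1)).reverse = bits (n + 1) N := by
      refine val_inj ?_ ?_
      · rw [List.length_reverse, h3, length_bits]
      · rw [h4, val_bits hlt]
    show (ans C x (r + 1)).getLast? = some true ↔ _
    rw [ans, List.getLast?_concat, Option.some_inj, decide_eq_true_iff, hQ]
    have h6 : ¬ ((ans C x r).length ≤ n ∧ val (thr (n + 1) (ans C x r)) ≤ N) := by
      rw [length_ans]
      rintro ⟨h7, -⟩
      omega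
    rw [or_iff_right h6, bitF_iff (by rw [length_ans, List.length_replicate]; exact hrn),
      List.length_replicate, List.length_replicate, ans_take C _ hrn, h5]

end Pool.Agent.LibPow85
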