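import Pool.Agent.LibPow85.AdvB26
import Pool.Agent.LibPow85.GrowP
import Pool.Agent.LibPow85.LangP
import Pool.Agent.LibQry85.Lin

/-! Task PW-6: from a collapse of two levels to advice. -/

namespace Pool.Agent.LibPow85

open Function Pool.Agent.LibNexp Pool.Agent.LibBHN Pool.Agent.LibQry85
open Pool.Agent.LibDual85 hiding FSet NoCert KStep BitC CStep Prot RelB

variable {O : List Bool → Bool}

private def down_pad (r : ℕ) (β : List Bool) : List Bool :=
  β ++ true :: List.replicate (r - β.length - 1) false

private theorem down_length {r : ℕ} {β : List Bool} (h : β.length < r) :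
    (down_pad r β).length = r := by
  rw [down_pad, List.length_append, List.length_cons, List.length_replicate]
  omega

private theorem down_inj (r : ℕ) :
    Set.InjOn (fun β => val (down_pad r β)) {β : List Bool | β.length < r} := by
  intro β hβ β' hβ' h
  have h1 : down_pad r β = down_pad r β' := by
    have h2 := bits_val (down_pad r β)
    have h3 := bits_val (down_pad r β')
    rw [down_length hβ] at h2
    rw [down_length hβ'] at h3
    rw [← h2, ← h3]
    exact congrArg (bits r) h
  exact pad_injective h1

private theorem down_maps (r : ℕ) :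
    Set.MapsTo (fun β => val (down_pad r β)) {β : List Bool | β.length < r}
      (Set.Iio (2 ^ r)) := by
  intro β hβ
  have h := cnt_val_lt (down_pad r β)
  rw [down_length hβ] at h
  exact h

private theorem down_fin (r : ℕ) : {β : List Bool | β.length < r}.Finite :=
  Set.Finite.of_injOn (down_maps r) (down_inj r) (Set.finite_Iio _)

private theorem down_ncard (r : ℕ) : {β : List Bool | β.length < r}.ncard ≤ 2 ^ r := by
  have h := Set.ncard_le_ncard_of_injOn _ (down_maps r) (down_inj r) (Set.finite_Iio _)
  rwa [← Finset.coe_Iio, Set.ncard_coe_finset, Nat.card_Iio] at h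

theorem pw_of_collapse {i j q : ℕ} (hij : i < j) (hq : 1 ≤ q)
    (h : ∀ L ∈ PQueryF (NEXPLang O) (fpow ((j : ℝ) / q)), ∃ c : ℕ,
      L ∈ PQueryF (NEXPLang O) fun n => c * fpow ((i : ℝ) / q) n + c) :
    Pw O (max ((i : ℝ) / j) (1 / 2)) := by
  intro K hK
  have hj : 1 ≤ j := by omega
  obtain ⟨L, hL, hbits⟩ := exists_langP hK hj hq
  obtain ⟨c, hc⟩ := h L hL
  obtain ⟨F, hF, G, hG, hG', hLG⟩ := kprot_of_pqueryF hc
  have hrho : PolyB fun n => c * fpow ((i : ℝ) / q) n + c :=
    ((PolyB.const c).mul fpow_poly).add (PolyB.const c)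
  have hconstr : Constr O fun n => c * fpow ((i : ℝ) / q) n + c :=
    (constr_fpow O hq).lin fpow_poly c c
  obtain ⟨mm, hm1, hm2, hm3⟩ := exists_mmP O hj q hrho
  have hprot : Prot O (inpP j q) F G (fun β => β) (fun n => c * fpow ((i : ℝ) / q) n + c) mm :=
    { hI := nexp_inpP O hj q
      hIl := inpP_bound hj q
      hF := hF
      hG := hG
      hG' := hG'
      hkey := nexp_eq 1 0
      hkl := fun β => le_refl _
      hrho := hconstr.nexp 0 1
      hrhop := hrho
      hmm := hm1
      hmmp := hm2
      hmml := hm3 }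
  have hset : ∀ m : ℕ, {γ | ∃ β : List Bool, β.length < c * fpow ((i : ℝ) / q) m + c ∧ γ = β} =
      {β : List Bool | β.length < c * fpow ((i : ℝ) / q) m + c} := by
    intro m
    ext γ
    constructor
    · rintro ⟨β, h1, rfl⟩
      exact h1
    · intro h1
      exact ⟨γ, h1, rfl⟩
  have hadv := advice_of_prot hprot hK
    (fun n k hk => (hbits n k hk).symm.trans (hLG (inpP j q n k)))
    (κ := fun m => 2 ^ (c * fpow ((i : ℝ) / q) m + c))
    (fun m => by
      rw [hset m]
      exact down_ncard _)
    (fun m => by
      rw [hset m]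
      exact down_fin _)
  obtain ⟨C, hC⟩ := growth hij hq c
  refine ⟨C, WithAdvice.mono (fun f hf n => ?_) hadv⟩
  refine le_trans ?_ (hC n)
  exact_mod_cast hf n

end Pool.Agent.LibPow85
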