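import Pool.Agent.LibBHN.Count
import Pool.Agent.LibPow85.Fact16

/-! Task LD-17. -/

namespace Pool.Agent.LibPow85

open Function Pool.Agent.LibNexp Pool.Agent.LibBHN
open Pool.Agent.LibDual85 hiding FSet NoCert KStep BitC CStep Prot RelB

variable {O : List Bool → Bool}

variable {I : ℕ → ℕ → List Bool} {F G : Lang} {key : List Bool → List Bool} {rho mm : ℕ → ℕ}

theorem nexp_noCert (h : Prot O I F G key rho mm) :
    NEXP O fun e : Fin 3 → List Bool => NoCert I F key rho mm (e 0).length (e 1) (e 2) := by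
  have h1 : NEXP O fun e : Fin 3 → List Bool => FSet I F key rho (e 0).length (e 2) ∧ e 2 ≠ e 1 := by
    refine (((nexp_fset h).reindex ![0, 2]).congr fun e => ?_).and (nexp_ne 2 1)
    simp
  have h2 := nexp_count (k := 2)
    (R := fun e y => FSet I F key rho (e 0).length y ∧ y ≠ e 1) h1
  have h2' : NEXP O fun e : Fin 3 → List Bool => ∃ n, (e 2).length = n + 1 ∧
      val (e 2) ≤ cnt n fun y => FSet I F key rho (e 0).length y ∧ y ≠ e 1 := h2
  have h3 : NEXP O fun e : Fin 4 → List Bool => (∃ z, IsPad z ∧ e 3 = e 2 ++ z) ∧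
      (e 3).length = mm (e 0).length ∧ (e 1).length = 1 * (e 3).length + 1 ∧
      ∃ n, (e 1).length = n + 1 ∧
        val (e 1) ≤ cnt n fun y => FSet I F key rho (e 0).length y ∧ y ≠ e 3 := by
    refine (((nexp_catPad (O := O)).reindex ![2, 3]).congr fun e => ?_).and
      (((h.hmm.reindex ![0, 3]).congr fun e => ?_).and ((nexp_lin 1 1 3 1).and
        ((h2'.reindex ![0, 3, 1]).congr fun e => ?_)))
    · simp
    · simp
    · simp
  have h4 := nexp_ex (R := fun (e : Fin 3 → List Bool) w => (∃ z, IsPad z ∧ w = e 2 ++ z) ∧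
      w.length = mm (e 0).length ∧ (e 1).length = 1 * w.length + 1 ∧
      ∃ n, (e 1).length = n + 1 ∧
        val (e 1) ≤ cnt n fun y => FSet I F key rho (e 0).length y ∧ y ≠ w) h3
    (g := fun n => n) PolyB.id (by
      rintro e w ⟨-, -, h5, -⟩
      have := len_le_size e 1
      show _ ≤ size e
      omega)
  refine h4.congr fun e => ?_
  unfold NoCert
  constructor
  · rintro ⟨w, ⟨z, h5, rfl⟩, h6, h7, n, h8, h9⟩
    have hn : n = mm (e 0).length := by omega
    subst hn
    exact ⟨z, h5, h6, h8, h9⟩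
  · rintro ⟨z, h5, h6, h7, h8⟩
    exact ⟨_, ⟨z, h5, rfl⟩, h6, by omega, _, h7, h8⟩

end Pool.Agent.LibPow85
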