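import Pool.Agent.LibPow85.Fact20

/-! Task LD-21. -/

namespace Pool.Agent.LibPow85

open Function Pool.Agent.LibNexp Pool.Agent.LibBHN
open Pool.Agent.LibDual85 hiding FSet NoCert KStep BitC CStep Prot RelB

variable {O : List Bool → Bool}

variable {I : ℕ → ℕ → List Bool} {F G : Lang} {key : List Bool → List Bool} {rho mm : ℕ → ℕ}

theorem bitC_iff (h : Prot O I F G key rho mm) {n i : ℕ} (hi : i ≤ n) {t : List Bool}
    (htl : t.length = mm n + 1) (ht : val t = cnt (mm n) (FSet I F key rho n)) (b : Bool) :
    BitC I F G key rho mm n t (ones i) b ↔
      (b = true ↔ pair (I n i) (kans F key (I n i) (rho (I n i).length)) ∈ G) := by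
  classical
  set x := I n i with hx
  have hxp : I n (ones i).length = x := by rw [List.length_replicate]
  -- certified runs reach exactly the prefixes of the true answers
  have hrun : ∀ α, Relation.ReflTransGen (KStep I F key rho mm n t x) [] α →
      α = kans F key x α.length := by
    intro α hα
    induction hα with
    | refl => rfl
    | @tail β β' _ hs ih =>
      obtain ⟨hl, hs⟩ := hs
      rcases hs with ⟨rfl, hF⟩ | ⟨rfl, hN⟩
      · rw [List.length_append, List.length_singleton, kans, ← ih]
        have : decide (pair x (key β) ∈ F) = true := by simpa using hF
        rw [this]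
      · rw [List.length_append, List.length_singleton, kans, ← ih]
        have hβ : β.length < rho x.length := by
          rw [List.length_append, List.length_singleton] at hl
          omega
        have hF := (noCert_iff h hi hβ htl ht).mp hN
        have : decide (pair x (key β) ∈ F) = false := by simpa using hF
        rw [this]
  have hreach : ∀ j ≤ rho x.length,
      Relation.ReflTransGen (KStep I F key rho mm n t x) [] (kans F key x j) := by
    intro j
    induction j with
    | zero => intro _; exact .refl
    | succ j ih =>
      intro hj
      refine (ih (by omega)).tail ⟨by rw [length_kans]; exact hj, ?_⟩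
      by_cases hF : pair x (key (kans F key x j)) ∈ F
      · left
        refine ⟨?_, hF⟩
        rw [kans]
        simp [hF]
      · right
        refine ⟨?_, ?_⟩
        · rw [kans]
          simp [hF]
        · exact (noCert_iff h hi (by rw [length_kans]; exact hj) htl ht).mpr hF
  have hcore : BitC I F G key rho mm n t (ones i) b ↔
      ((b = true ∧ pair x (kans F key x (rho x.length)) ∈ G) ∨
        (b = false ∧ pair x (kans F key x (rho x.length)) ∉ G)) := by
    unfold BitC
    rw [hxp]
    constructor
    · rintro ⟨α, hl, hr, hb⟩
      have := hrun α hr
      rw [hl] at this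
      rw [this] at hb
      exact hb
    · intro hb
      exact ⟨kans F key x (rho x.length), length_kans _ _ _ _, hreach _ le_rfl, hb⟩
  rw [hcore]
  cases b <;> simp

end Pool.Agent.LibPow85
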