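import Pool.Agent.LibBHN.PoracleA
import Pool.Agent.LibDual85.AdvA11
import Pool.Agent.LibDual85.Good
import Pool.Agent.LibNexp.PowFinal
import Pool.Agent.LibPow85.Floor
import Pool.Agent.LibQry85.Lin
import Pool.Agent.LibQry85.Up

/-! Task PW-7: from advice to queries. -/

namespace Pool.Agent.LibPow85

open Function Pool.Agent.LibNexp Pool.Agent.LibBHN Pool.Agent.LibQry85
open Pool.Agent.LibDual85 hiding FSet NoCert KStep BitC CStep Prot RelB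

variable {O : List Bool → Bool}

private theorem mlen_bound (c n : ℕ) : mlen c n + 1 ≤ (c + 7) * (n + 1) ^ (c + 1) := by
  have h1 : n + 1 ≤ (n + 1) ^ (c + 1) := Nat.le_self_pow (by omega) _
  have h2 : n ^ c ≤ (n + 1) ^ (c + 1) :=
    (Nat.pow_le_pow_left (Nat.le_succ n) c).trans (Nat.pow_le_pow_right (by omega) (by omega))
  have h3 : (c + 4) * 1 ≤ (c + 4) * (n + 1) ^ (c + 1) := Nat.mul_le_mul_left _ (by omega)
  have h4 : (c + 7) * (n + 1) ^ (c + 1) = (c + 4) * (n + 1) ^ (c + 1) + 3 * (n + 1) ^ (c + 1) := by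
    ring
  unfold mlen
  rw [h4]
  omega

private theorem mlen_rpow (c q n : ℕ) :
    ((mlen c n : ℝ) + 1) ^ (1 / (((q + 1 : ℕ) : ℝ) * ((c + 1 : ℕ) : ℝ))) ≤
      ((c + 7 : ℕ) : ℝ) * ((n : ℝ) + 1) ^ (((1 : ℕ) : ℝ) / ((q + 1 : ℕ) : ℝ)) := by
  have hq : (1 : ℝ) ≤ ((q + 1 : ℕ) : ℝ) := by exact_mod_cast Nat.succ_le_succ (Nat.zero_le q)
  have hc : (1 : ℝ) ≤ ((c + 1 : ℕ) : ℝ) := by exact_mod_cast Nat.succ_le_succ (Nat.zero_le c)
  have hqc : (1 : ℝ) ≤ ((q + 1 : ℕ) : ℝ) * ((c + 1 : ℕ) : ℝ) := by nlinarith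
  set ε : ℝ := 1 / (((q + 1 : ℕ) : ℝ) * ((c + 1 : ℕ) : ℝ)) with hε
  have hε0 : 0 ≤ ε := by positivity
  have hε1 : ε ≤ 1 := by
    rw [hε, div_le_one (by linarith)]
    exact hqc
  have h1 : ((mlen c n : ℝ) + 1) ≤ ((c + 7 : ℕ) : ℝ) * ((n : ℝ) + 1) ^ (c + 1) := by
    have := mlen_bound c n
    have h2 : ((mlen c n + 1 : ℕ) : ℝ) ≤ (((c + 7) * (n + 1) ^ (c + 1) : ℕ) : ℝ) := by
      exact_mod_cast this
    rw [Nat.cast_mul, Nat.cast_pow, Nat.cast_add, Nat.cast_one] at h2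
    push_cast at h2 ⊢
    exact h2
  have hn : (0 : ℝ) ≤ (n : ℝ) + 1 := by positivity
  have hA : (1 : ℝ) ≤ ((c + 7 : ℕ) : ℝ) := by
    exact_mod_cast (by omega : 1 ≤ c + 7)
  calc ((mlen c n : ℝ) + 1) ^ ε ≤ (((c + 7 : ℕ) : ℝ) * ((n : ℝ) + 1) ^ (c + 1)) ^ ε :=
        Real.rpow_le_rpow (by positivity) h1 hε0
    _ = ((c + 7 : ℕ) : ℝ) ^ ε * (((n : ℝ) + 1) ^ (c + 1)) ^ ε :=
        Real.mul_rpow (by positivity) (by positivity)
    _ ≤ ((c + 7 : ℕ) : ℝ) * (((n : ℝ) + 1) ^ (c + 1)) ^ ε := by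
        refine mul_le_mul_of_nonneg_right ?_ (by positivity)
        calc ((c + 7 : ℕ) : ℝ) ^ ε ≤ ((c + 7 : ℕ) : ℝ) ^ (1 : ℝ) :=
              Real.rpow_le_rpow_of_exponent_le hA hε1
          _ = _ := Real.rpow_one _
    _ = _ := by
        congr 1
        rw [← Real.rpow_natCast, ← Real.rpow_mul hn]
        congr 1
        rw [hε]
        push_cast
        field_simp

theorem queries_of_pw (h : ∀ ε : ℝ, 0 < ε → Pw O ε) {j q : ℕ} (hj : 1 ≤ j) (hq : 1 ≤ q) :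
    POracle (NEXPLang O) ⊆ PQueryF (NEXPLang O) (fpow ((j : ℝ) / q)) := by
  intro L hL
  obtain ⟨C, hC, c0, hLC⟩ := poracle_subset hL
  have hLeq : L = {x | pair x (ans C x (x.length ^ c0 + c0)) ∈ C} := by
    ext x
    exact hLC x
  obtain ⟨c1, hc1⟩ := h (1 / (((q + 1 : ℕ) : ℝ) * ((c0 + 1 : ℕ) : ℝ))) (by positivity) _
    (padLang_mem hC)
  set ε : ℝ := 1 / (((q + 1 : ℕ) : ℝ) * ((c0 + 1 : ℕ) : ℝ)) with hε
  set F : ℕ → ℕ := fpow (((1 : ℕ) : ℝ) / ((q + 1 : ℕ) : ℝ)) with hF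
  have hFn : ∀ n : ℕ, ((n : ℝ) + 1) ^ (((1 : ℕ) : ℝ) / ((q + 1 : ℕ) : ℝ)) ≤ (F n : ℝ) + 1 := by
    intro n
    exact (Nat.lt_floor_add_one _).le
  have hF1 : ∀ n : ℕ, (F n : ℝ) ≤ ((n : ℝ) + 1) ^ (((1 : ℕ) : ℝ) / ((q + 1 : ℕ) : ℝ)) := by
    intro n
    exact Nat.floor_le (by positivity)
  obtain ⟨c2, hc2⟩ : ∃ c2 : ℕ, |c1| * ((c0 + 7 : ℕ) : ℝ) + 1 ≤ c2 := exists_nat_ge _
  -- the bound of the advice
  have hs : (PadLang C)ᶜ ∈ WithAdvice (NEXPLang O)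
      {f | ∀ n, (f n).length ≤ ⌊|c1| * ((n : ℝ) + 1) ^ ε⌋₊} := by
    refine WithAdvice.mono (fun f hf n => ?_) hc1
    refine Nat.le_floor ((hf n).trans ?_)
    exact mul_le_mul_of_nonneg_right (le_abs_self c1) (by positivity)
  have hlam : ∀ n, ⌊|c1| * ((mlen c0 n : ℝ) + 1) ^ ε⌋₊ + 1 ≤ c2 * F n + c2 := by
    intro n
    have h1 : (⌊|c1| * ((mlen c0 n : ℝ) + 1) ^ ε⌋₊ : ℝ) ≤ |c1| * ((mlen c0 n : ℝ) + 1) ^ ε :=
      Nat.floor_le (by positivity)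
    have h2 := mlen_rpow c0 q n
    rw [← hε] at h2
    have h3 : |c1| * ((mlen c0 n : ℝ) + 1) ^ ε ≤
        |c1| * (((c0 + 7 : ℕ) : ℝ) * ((F n : ℝ) + 1)) :=
      mul_le_mul_of_nonneg_left (h2.trans (mul_le_mul_of_nonneg_left (hFn n) (by positivity)))
        (abs_nonneg _)
    have h4 : (0 : ℝ) ≤ F n := Nat.cast_nonneg _
    have h5 : ((⌊|c1| * ((mlen c0 n : ℝ) + 1) ^ ε⌋₊ + 1 : ℕ) : ℝ) ≤ ((c2 * F n + c2 : ℕ) : ℝ) := by
      push_cast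
      push_cast at h3 hc2
      nlinarith
    exact_mod_cast h5
  obtain ⟨B, hB, hgood⟩ := exists_good hC c0 hs (lam := fun n => c2 * F n + c2) hlam
  have hq1 : 1 ≤ q + 1 := by omega
  have hcF : Constr O F := constr_fpow O hq1
  have hpF : PolyB F := fpow_poly
  have hN : NEXP O fun e : Fin 2 → List Bool => (e 1).length = c2 * F (e 0).length + c2 :=
    (hcF.lin hpF c2 c2).nexp 0 1
  have hP : PolyB fun n => c2 * F n + c2 := ((PolyB.const c2).mul hpF).add (PolyB.const c2)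
  have h6 := pqueryF_of_good hB hC c0 hN hP hgood
  rw [← hLeq] at h6
  -- growth
  obtain ⟨n0, hn0⟩ : ∃ n0 : ℕ, ∀ n, n0 ≤ n → c2 * F n + c2 + 1 + 1 ≤ fpow ((j : ℝ) / q) n := by
    have hq0 : (0 : ℝ) < q := by exact_mod_cast hq
    have hδ : (0 : ℝ) < 1 / (q : ℝ) - ((1 : ℕ) : ℝ) / ((q + 1 : ℕ) : ℝ) := by
      rw [sub_pos, Nat.cast_one]
      refine one_div_lt_one_div_of_lt hq0 ?_
      push_cast
      linarith
    set δ : ℝ := 1 / (q : ℝ) - ((1 : ℕ) : ℝ) / ((q + 1 : ℕ) : ℝ) with hδdef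
    have ht : Filter.Tendsto (fun n : ℕ => ((n : ℝ) + 1) ^ δ) Filter.atTop Filter.atTop :=
      (tendsto_rpow_atTop hδ).comp
        (Filter.tendsto_atTop_add_const_right _ _ tendsto_natCast_atTop_atTop)
    obtain ⟨n0, hn0⟩ := Filter.eventually_atTop.1 (ht.eventually_ge_atTop (2 * (c2 : ℝ) + 2))
    refine ⟨n0, fun n hn => ?_⟩
    refine Nat.le_floor ?_
    have h7 := hn0 n hn
    set P : ℝ := ((n : ℝ) + 1) ^ (((1 : ℕ) : ℝ) / ((q + 1 : ℕ) : ℝ)) with hPdef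
    have hb : (1 : ℝ) ≤ (n : ℝ) + 1 := one_le_base n
    have h8 : 1 ≤ P := Real.one_le_rpow hb (by positivity)
    have h9 : P * ((n : ℝ) + 1) ^ δ ≤ ((n : ℝ) + 1) ^ ((j : ℝ) / q) := by
      rw [hPdef, ← Real.rpow_add (by linarith)]
      refine Real.rpow_le_rpow_of_exponent_le hb ?_
      rw [hδdef]
      have h10 : 1 / (q : ℝ) ≤ (j : ℝ) / q := by
        refine div_le_div_of_nonneg_right ?_ hq0.le
        exact_mod_cast hj
      linarith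
    have h11 := hF1 n
    have h12 : (0 : ℝ) ≤ c2 := Nat.cast_nonneg _
    push_cast
    have h13 : (c2 : ℝ) * F n ≤ c2 * P := mul_le_mul_of_nonneg_left h11 h12
    have h14 : P * (2 * (c2 : ℝ) + 2) ≤ P * ((n : ℝ) + 1) ^ δ :=
      mul_le_mul_of_nonneg_left h7 (by linarith)
    nlinarith
  exact pqueryF_up (r := fpow ((j : ℝ) / q)) (r' := fun n => c2 * F n + c2 + 1) (n0 := n0)
    (constr_fpow O hq) fpow_poly (hcF.lin hpF c2 (c2 + 1))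
    (hP.add (PolyB.const 1)) (one_le_fpow (by positivity)) hn0 h6

end Pool.Agent.LibPow85
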