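import Pool.Agent.LibPow85.Down
import Pool.Agent.LibPow85.UpP
import Pool.Agent.LibQry85.Sub

/-! Task PW-8: the theorem at the polynomial scale. -/

namespace Pool.Agent.LibPow85

open Function Pool.Agent.LibNexp Pool.Agent.LibBHN Pool.Agent.LibQry85
open Pool.Agent.LibDual85 hiding FSet NoCert KStep BitC CStep Prot RelB

variable {O : List Bool → Bool}

theorem exists_frac {α β : ℚ} (hα : 0 ≤ α) (hαβ : α < β) : ∃ i j q : ℕ, i < j ∧ 1 ≤ q ∧
    (α : ℝ) = (i : ℝ) / q ∧ (β : ℝ) = (j : ℝ) / q := by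
  refine ⟨α.num.toNat * β.den, β.num.toNat * α.den, α.den * β.den, ?_, ?_, ?_, ?_⟩
  · have h1 : (α.num : ℤ) * β.den < β.num * α.den := by
      exact (Rat.lt_iff α β).1 hαβ
    have h2 : 0 ≤ α.num := Rat.num_nonneg.2 hα
    have h3 : 0 ≤ β.num := Rat.num_nonneg.2 (hα.trans hαβ.le)
    zify
    rw [Int.toNat_of_nonneg h2, Int.toNat_of_nonneg h3]
    exact h1
  · exact Nat.mul_pos α.den_pos β.den_pos
  · have h2 : 0 ≤ α.num := Rat.num_nonneg.2 hα
    have h4 : ((α.num.toNat : ℤ) : ℝ) = (α.num : ℝ) := by rw [Int.toNat_of_nonneg h2]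
    have h5 : (α.den : ℝ) ≠ 0 := by exact_mod_cast α.den_nz
    have h6 : (β.den : ℝ) ≠ 0 := by exact_mod_cast β.den_nz
    have h7 : (α : ℝ) = (α.num : ℝ) / α.den := by exact_mod_cast (Rat.num_div_den α).symm
    rw [h7]
    push_cast at h4 ⊢
    rw [h4]
    field_simp
  · have h2 : 0 ≤ β.num := Rat.num_nonneg.2 (hα.trans hαβ.le)
    have h4 : ((β.num.toNat : ℤ) : ℝ) = (β.num : ℝ) := by rw [Int.toNat_of_nonneg h2]
    have h5 : (α.den : ℝ) ≠ 0 := by exact_mod_cast α.den_nz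
    have h6 : (β.den : ℝ) ≠ 0 := by exact_mod_cast β.den_nz
    have h7 : (β : ℝ) = (β.num : ℝ) / β.den := by exact_mod_cast (Rat.num_div_den β).symm
    rw [h7]
    push_cast at h4 ⊢
    rw [h4]
    field_simp

theorem main (O : List Bool → Bool) : List.TFAE
    [∃ α β : ℚ, 0 ≤ α ∧ α < β ∧ ∀ L ∈ PQueryF (NEXPLang O) (fpow β), ∃ c : ℕ,
        L ∈ PQueryF (NEXPLang O) fun n => c * fpow α n + c,
      ∀ ε : ℚ, 0 < ε → PQueryF (NEXPLang O) (fpow ε) = POracle (NEXPLang O),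
      ∃ k : ℕ, ∀ L ∈ POracle (NEXPLang O), ∃ c : ℕ,
        L ∈ PQueryF (NEXPLang O) fun n => c * n ^ k + c,
      ∃ α : ℝ, α < 1 ∧ Pw O α,
      ∀ ε : ℝ, 0 < ε → Pw O ε] := by
  tfae_have 1 → 4 := by
    rintro ⟨α, β, hα, hαβ, h⟩
    obtain ⟨i, j, q, hij, hq, h1, h2⟩ := exists_frac hα hαβ
    rw [h1, h2] at h
    refine ⟨_, ?_, pw_of_collapse hij hq h⟩
    refine max_lt ?_ (by norm_num)
    rw [div_lt_one (by exact_mod_cast (by omega : 0 < j))]
    exact_mod_cast hij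
  tfae_have 4 → 5 := fun ⟨α, hα, h⟩ ε hε => Pw.law hα h hε
  tfae_have 5 → 2 := by
    intro h ε hε
    obtain ⟨i, j, q, hij, hq, h1, h2⟩ := exists_frac (le_refl (0 : ℚ)) hε
    rw [h2]
    exact (pqueryF_subset (constr_fpow O hq) fpow_poly).antisymm (queries_of_pw h (by omega) hq)
  tfae_have 2 → 3 := by
    intro h
    refine ⟨1, fun L hL => ⟨1, ?_⟩⟩
    rw [← h 1 (by norm_num)] at hL
    have : (fpow ((1 : ℚ) : ℝ)) = fun n => 1 * n ^ 1 + 1 := by
      funext n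
      rw [fpow, Rat.cast_one, Real.rpow_one, one_mul, pow_one]
      have : ((n : ℝ) + 1) = ((n + 1 : ℕ) : ℝ) := by push_cast; ring
      rw [this, Nat.floor_natCast]
    rwa [this] at hL
  tfae_have 3 → 1 := by
    rintro ⟨k, h⟩
    refine ⟨k, k + 1, by positivity, by norm_num, fun L hL => ?_⟩
    have e1 : (((k : ℚ) + 1 : ℚ) : ℝ) = ((k + 1 : ℕ) : ℝ) / (1 : ℕ) := by push_cast; ring
    have e2 : (((k : ℚ) : ℚ) : ℝ) = ((k : ℕ) : ℝ) / (1 : ℕ) := by push_cast; ring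
    rw [e1] at hL
    obtain ⟨c, hc⟩ := h L (pqueryF_subset (constr_fpow O le_rfl) fpow_poly hL)
    refine ⟨c + 1, ?_⟩
    rw [e2]
    have hk : ∀ n, fpow ((k : ℝ) / (1 : ℕ)) n = (n + 1) ^ k := by
      intro n
      rw [fpow]
      have : ((n : ℝ) + 1) ^ ((k : ℝ) / (1 : ℕ)) = (((n + 1) ^ k : ℕ) : ℝ) := by
        push_cast
        rw [div_one, Real.rpow_natCast]
      rw [this, Nat.floor_natCast]
    refine pqueryF_up (r' := fun n => c * n ^ k + c) (n0 := 0) ?_ ?_ ?_ ?_ ?_ ?_ hc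
    · exact (constr_fpow O le_rfl).lin fpow_poly _ _
    · exact (((PolyB.const (c + 1)).mul fpow_poly).add (PolyB.const (c + 1)))
    · exact (constr_pow O k).lin (PolyB.id.pow k) c c
    · exact ((PolyB.const c).mul (PolyB.id.pow k)).add (PolyB.const c)
    · intro n
      omega
    · intro n _
      rw [hk]
      have h3 : n ^ k ≤ (n + 1) ^ k := Nat.pow_le_pow_left (by omega) k
      have h4 : c * n ^ k ≤ c * (n + 1) ^ k := Nat.mul_le_mul_left _ h3
      have h5 : (c + 1) * (n + 1) ^ k = c * (n + 1) ^ k + (n + 1) ^ k := by ring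
      rw [h5]
      omega
  tfae_finish

end Pool.Agent.LibPow85
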